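import Mathlib

/-!
# Idempotents of continuous associative subadditive combination functions

The sets of idempotents `{e : K(e,e) = e}` of the admissible functions `K` on `[0,∞)` are exactly
the closed additive submonoids of `[0,∞)`, and `K` is the maximum across an idempotent.
-/

set_option autoImplicit false

namespace Pool.Agent.Results.MP_d71f90_an.Idempotents

open scoped NNReal

/-- `K` satisfies the conditions 1-4, is continuous and associative. -/
structure Admissible (K : ℝ≥0 → ℝ≥0 → ℝ≥0) : Prop where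
  zero : ∀ a, K a 0 = a
  comm : ∀ a b, K a b = K b a
  mono : ∀ a b c, a ≤ b → K a c ≤ K b c
  subadd : ∀ a b c d, K (a + c) (b + d) ≤ K a b + K c d
  cont : Continuous fun p : ℝ≥0 × ℝ≥0 => K p.1 p.2
  assoc : ∀ a b c, K (K a b) c = K a (K b c)

/-- The set of idempotents `K(e,e) = e`. -/
def idem (K : ℝ≥0 → ℝ≥0 → ℝ≥0) : Set ℝ≥0 := {e | K e e = e}

/-- the largest element of `E` below `s` -/
noncomputable def mE (E : Set ℝ≥0) (s : ℝ≥0) : ℝ≥0 := sSup (E ∩ Set.Iic s)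

/-- `R E s a b` will be the condition `K(a,b) ≤ s` -/
def R (E : Set ℝ≥0) (s a b : ℝ≥0) : Prop := (a - mE E s) + (b - mE E s) ≤ s - mE E s

/-- the function with set of idempotents `E` -/
noncomputable def KE (E : Set ℝ≥0) (a b : ℝ≥0) : ℝ≥0 := sInf {s | R E s a b}


/-! ### jI -/

theorem idem_closed (K : ℝ≥0 → ℝ≥0 → ℝ≥0) (hK : Admissible K) : IsClosed (idem K) :=
  isClosed_eq (hK.cont.comp (continuous_id.prodMk continuous_id)) continuous_id

theorem idem_zero (K : ℝ≥0 → ℝ≥0 → ℝ≥0) (hK : Admissible K) : (0 : ℝ≥0) ∈ idem K := hK.zero 0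

theorem jI_le_K (K : ℝ≥0 → ℝ≥0 → ℝ≥0) (hK : Admissible K) (a b : ℝ≥0) : a ≤ K a b := by
  have h1 := hK.mono 0 b a (zero_le)
  rw [hK.comm 0 a, hK.zero, hK.comm b a] at h1
  exact h1

theorem idem_add (K : ℝ≥0 → ℝ≥0 → ℝ≥0) (hK : Admissible K) (e f : ℝ≥0)
    (he : e ∈ idem K) (hf : f ∈ idem K) : e + f ∈ idem K := by
  have he' : K e e = e := he
  have hf' : K f f = f := hf
  show K (e + f) (e + f) = e + f
  apply le_antisymm
  · have := hK.subadd e e f f
    rwa [he', hf'] at this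
  · exact jI_le_K K hK _ _

/-- across an idempotent, `K` is the maximum -/
theorem cross (K : ℝ≥0 → ℝ≥0 → ℝ≥0) (hK : Admissible K) (e a b : ℝ≥0)
    (he : e ∈ idem K) (ha : a ≤ e) (hb : e ≤ b) : K a b = b := by
  have he' : K e e = e := he
  have hcont : Continuous (fun x => K e x) := hK.cont.comp (continuous_const.prodMk continuous_id)
  have hle : ∀ a b, b ≤ K a b := fun a b => by
    rw [hK.comm]; exact jI_le_K K hK b a
  have hivt := intermediate_value_Icc (zero_le : (0 : ℝ≥0) ≤ b) hcont.continuousOn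
  have hmem : b ∈ Set.Icc (K e 0) (K e b) := ⟨by rw [hK.zero]; exact hb, hle e b⟩
  obtain ⟨x, -, hx⟩ := hivt hmem
  have hx' : K e x = b := hx
  have h1 : K e b = b := by
    calc K e b = K e (K e x) := by rw [hx']
      _ = K (K e e) x := (hK.assoc e e x).symm
      _ = b := by rw [he', hx']
  apply le_antisymm
  · calc K a b ≤ K e b := hK.mono a e b ha
      _ = b := h1
  · exact hle a b

theorem idem_univ (K : ℝ≥0 → ℝ≥0 → ℝ≥0) (hK : Admissible K) :
    idem K = Set.univ ↔ ∀ a b, K a b = max a b := by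
  constructor
  · intro h a b
    rcases le_total a b with hab | hab
    · rw [max_eq_right hab]
      exact cross K hK a a b (by rw [h]; trivial) le_rfl hab
    · rw [max_eq_left hab, hK.comm]
      exact cross K hK b b a (by rw [h]; trivial) le_rfl hab
  · intro h
    ext e
    simp only [Set.mem_univ, iff_true]
    show K e e = e
    rw [h, max_self]

/-- arbitrarily small idempotents force the maximum -/
theorem idem_small (K : ℝ≥0 → ℝ≥0 → ℝ≥0) (hK : Admissible K)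
    (h : ∀ ε : ℝ≥0, 0 < ε → ∃ e ∈ idem K, 0 < e ∧ e < ε) : ∀ a b, K a b = max a b := by
  rw [← idem_univ K hK]
  ext x
  simp only [Set.mem_univ, iff_true]
  rw [← (idem_closed K hK).closure_eq, Metric.mem_closure_iff]
  intro ε hε
  obtain ⟨e, he, he0, heε⟩ := h ⟨ε, hε.le⟩ hε
  have hmul : ∀ n : ℕ, (n : ℝ≥0) * e ∈ idem K := by
    intro n
    induction n with
    | zero => rw [Nat.cast_zero, zero_mul]; exact idem_zero K hK
    | succ n ih =>
      rw [Nat.cast_succ, add_mul, one_mul]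
      exact idem_add K hK _ _ ih he
  refine ⟨(⌊(x : ℝ) / e⌋₊ : ℝ≥0) * e, hmul _, ?_⟩
  have he0' : (0 : ℝ) < e := he0
  have heε' : (e : ℝ) < ε := heε
  have h1 : (⌊(x : ℝ) / e⌋₊ : ℝ) ≤ (x : ℝ) / e := Nat.floor_le (div_nonneg x.2 he0'.le)
  have h2 : (x : ℝ) / e < (⌊(x : ℝ) / e⌋₊ : ℝ) + 1 := Nat.lt_floor_add_one _
  rw [le_div_iff₀ he0'] at h1
  rw [div_lt_iff₀ he0'] at h2
  rw [NNReal.dist_eq, NNReal.coe_mul, NNReal.coe_natCast, abs_of_nonneg (by linarith)]
  linarith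

theorem shift (K : ℝ≥0 → ℝ≥0 → ℝ≥0) (hK : Admissible K) (e x y : ℝ≥0)
    (he : e ∈ idem K) : K (e + x) (e + y) ≤ e + K x y := by
  have he' : K e e = e := he
  have := hK.subadd e e x y
  rwa [he'] at this

/-! ### jM -/

theorem mE_mem (E : Set ℝ≥0) (hE : IsClosed E) (h0 : (0 : ℝ≥0) ∈ E) (s : ℝ≥0) :
    mE E s ∈ E ∧ mE E s ≤ s := by
  have h1 : (E ∩ Set.Iic s).Nonempty := ⟨0, h0, Set.mem_Iic.2 zero_le⟩
  have h2 : BddAbove (E ∩ Set.Iic s) := ⟨s, fun x hx => hx.2⟩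
  have h3 : sSup (E ∩ Set.Iic s) ∈ E ∩ Set.Iic s := (hE.inter isClosed_Iic).csSup_mem h1 h2
  exact h3

theorem le_mE (E : Set ℝ≥0) (s e : ℝ≥0) (he : e ∈ E) (hs : e ≤ s) : e ≤ mE E s :=
  le_csSup ⟨s, fun _ hx => hx.2⟩ ⟨he, hs⟩

/-! ### jR -/

theorem jR_R_iff' (E : Set ℝ≥0) (hE : IsClosed E) (h0 : (0 : ℝ≥0) ∈ E) (s a b : ℝ≥0) :
    R E s a b ↔ a ≤ s ∧ b ≤ s ∧ a + b ≤ s + mE E s := by
  have hm := (mE_mem E hE h0 s).2
  unfold R
  generalize mE E s = m at *
  rcases le_total a m with ha | ha <;> rcases le_total b m with hb | hb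
  · rw [tsub_eq_zero_of_le ha, tsub_eq_zero_of_le hb]
    constructor
    · intro _
      exact ⟨ha.trans hm, hb.trans hm, add_le_add (ha.trans hm) hb⟩
    · intro _
      simp
  · rw [tsub_eq_zero_of_le ha, zero_add]
    constructor
    · intro h
      have hb' : b ≤ s := (tsub_le_tsub_iff_right hm).1 h
      exact ⟨ha.trans hm, hb', by rw [add_comm]; exact add_le_add hb' ha⟩
    · intro h
      exact tsub_le_tsub_right h.2.1 m
  · rw [tsub_eq_zero_of_le hb, add_zero]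
    constructor
    · intro h
      have ha' : a ≤ s := (tsub_le_tsub_iff_right hm).1 h
      exact ⟨ha', hb.trans hm, add_le_add ha' hb⟩
    · intro h
      exact tsub_le_tsub_right h.1 m
  · rw [← NNReal.coe_le_coe, NNReal.coe_add, NNReal.coe_sub ha, NNReal.coe_sub hb,
      NNReal.coe_sub hm, ← NNReal.coe_le_coe (r₁ := a), ← NNReal.coe_le_coe (r₁ := b),
      ← NNReal.coe_le_coe (r₁ := a + b), NNReal.coe_add, NNReal.coe_add]
    rw [← NNReal.coe_le_coe] at ha hb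
    constructor
    · intro h
      refine ⟨by linarith, by linarith, by linarith⟩
    · rintro ⟨_, _, h⟩
      linarith

theorem jR_R_upper' (E : Set ℝ≥0) (hE : IsClosed E) (h0 : (0 : ℝ≥0) ∈ E) (s s' a b : ℝ≥0)
    (hs : s ≤ s') (h : R E s a b) : R E s' a b := by
  rw [jR_R_iff' E hE h0] at h ⊢
  have h1 : mE E s ≤ mE E s' := le_mE E s' _ (mE_mem E hE h0 s).1 ((mE_mem E hE h0 s).2.trans hs)
  exact ⟨h.1.trans hs, h.2.1.trans hs, h.2.2.trans (add_le_add hs h1)⟩

theorem jR_R_KE' (E : Set ℝ≥0) (hE : IsClosed E) (h0 : (0 : ℝ≥0) ∈ E) (a b : ℝ≥0) :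
    R E (KE E a b) a b := by
  have hne : ({s | R E s a b} : Set ℝ≥0).Nonempty := by
    refine ⟨a + b, ?_⟩
    change R E (a + b) a b
    rw [jR_R_iff' E hE h0]
    exact ⟨le_self_add, le_add_self, le_self_add⟩
  obtain ⟨s0, hs0⟩ : ∃ s0, s0 = KE E a b := ⟨_, rfl⟩
  have hs0' : s0 = sInf {s | R E s a b} := hs0
  rw [← hs0, jR_R_iff' E hE h0]
  have ha : a ≤ s0 := by
    rw [hs0']
    exact le_csInf hne fun s hs => ((jR_R_iff' E hE h0 s a b).1 hs).1
  have hb : b ≤ s0 := by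
    rw [hs0']
    exact le_csInf hne fun s hs => ((jR_R_iff' E hE h0 s a b).1 hs).2.1
  refine ⟨ha, hb, ?_⟩
  by_cases hsE : s0 ∈ E
  · exact add_le_add ha (hb.trans (le_mE E s0 s0 hsE le_rfl))
  · by_contra hlt
    push Not at hlt
    obtain ⟨ε, hε, hball⟩ := Metric.isOpen_iff.1 hE.isOpen_compl s0 hsE
    have hlt' : ((s0 + mE E s0 : ℝ≥0) : ℝ) < ((a + b : ℝ≥0) : ℝ) := NNReal.coe_lt_coe.2 hlt
    rw [NNReal.coe_add, NNReal.coe_add] at hlt'
    obtain ⟨η, hη, hη1, hη2⟩ : ∃ η : ℝ, 0 < η ∧ η < ε ∧ (s0 : ℝ) + η + mE E s0 < a + b := by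
      refine ⟨min (ε / 2) (((a : ℝ) + b - s0 - mE E s0) / 2), ?_, ?_, ?_⟩
      · apply lt_min
        · linarith
        · linarith
      · exact lt_of_le_of_lt (min_le_left _ _) (by linarith)
      · have := min_le_right (ε / 2) (((a : ℝ) + b - s0 - mE E s0) / 2)
        linarith
    obtain ⟨η', hη'⟩ : ∃ η' : ℝ≥0, (η' : ℝ) = η := ⟨⟨η, hη.le⟩, rfl⟩
    have h3 : sInf {s | R E s a b} < s0 + η' := by
      rw [← hs0', ← NNReal.coe_lt_coe, NNReal.coe_add, hη']
      linarith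
    obtain ⟨s, hs, hs2⟩ := exists_lt_of_csInf_lt hne h3
    have hs1 : s0 ≤ s := by rw [hs0']; exact csInf_le (OrderBot.bddBelow _) hs
    have hs3 : (s : ℝ) < s0 + η := by
      have := NNReal.coe_lt_coe.2 hs2
      rwa [NNReal.coe_add, hη'] at this
    have hms : mE E s ≤ s0 := by
      by_contra hgt
      push Not at hgt
      have h4 := (mE_mem E hE h0 s).1
      have h5 : (mE E s : ℝ) ≤ s := NNReal.coe_le_coe.2 (mE_mem E hE h0 s).2
      have h6 : (s0 : ℝ) < mE E s := NNReal.coe_lt_coe.2 hgt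
      have h7 : mE E s ∈ Metric.ball s0 ε := by
        rw [Metric.mem_ball, NNReal.dist_eq, abs_lt]
        constructor <;> linarith
      exact hball h7 h4
    have hmm : mE E s ≤ mE E s0 := le_mE E s0 _ (mE_mem E hE h0 s).1 hms
    have h8 := ((jR_R_iff' E hE h0 s a b).1 hs).2.2
    have h9 : (a : ℝ) + b ≤ s + mE E s := by
      have := NNReal.coe_le_coe.2 h8
      rwa [NNReal.coe_add, NNReal.coe_add] at this
    have h10 : (mE E s : ℝ) ≤ mE E s0 := NNReal.coe_le_coe.2 hmm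
    linarith



theorem KE_le_iff (E : Set ℝ≥0) (hE : IsClosed E) (h0 : (0 : ℝ≥0) ∈ E) (a b s : ℝ≥0) :
    KE E a b ≤ s ↔ R E s a b := by
  constructor
  · intro h
    exact jR_R_upper' E hE h0 _ s a b h (jR_R_KE' E hE h0 a b)
  · intro h
    exact csInf_le (OrderBot.bddBelow _) h

/-! ### jK -/

theorem KE_zero (E : Set ℝ≥0) (hE : IsClosed E) (h0 : (0 : ℝ≥0) ∈ E) (a : ℝ≥0) :
    KE E a 0 = a := by
  have key : ∀ s, KE E a 0 ≤ s ↔ a ≤ s := by
    intro s
    rw [KE_le_iff E hE h0]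
    unfold R
    rw [zero_tsub, add_zero]
    constructor
    · intro h
      calc a ≤ (a - mE E s) + mE E s := le_tsub_add
        _ ≤ (s - mE E s) + mE E s := by gcongr
        _ = s := tsub_add_cancel_of_le (mE_mem E hE h0 s).2
    · intro h
      exact tsub_le_tsub_right h _
  exact eq_of_forall_ge_iff key

theorem KE_comm (E : Set ℝ≥0) (hE : IsClosed E) (h0 : (0 : ℝ≥0) ∈ E) (a b : ℝ≥0) :
    KE E a b = KE E b a := by
  refine eq_of_forall_ge_iff fun s => ?_
  rw [KE_le_iff E hE h0, KE_le_iff E hE h0]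
  unfold R
  rw [add_comm]

theorem KE_mono (E : Set ℝ≥0) (hE : IsClosed E) (h0 : (0 : ℝ≥0) ∈ E) (a b c : ℝ≥0) (h : a ≤ b) :
    KE E a c ≤ KE E b c := by
  rw [KE_le_iff E hE h0]
  have h1 := (KE_le_iff E hE h0 b c (KE E b c)).1 le_rfl
  unfold R at h1 ⊢
  exact (add_le_add_left (tsub_le_tsub_right h _) _).trans h1

theorem KE_idem (E : Set ℝ≥0) (hE : IsClosed E) (h0 : (0 : ℝ≥0) ∈ E) : idem (KE E) = E := by
  ext e
  unfold idem
  rw [Set.mem_ofPred_eq]
  constructor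
  · intro h
    have h1 := (KE_le_iff E hE h0 e e e).1 h.le
    unfold R at h1
    have h2 : e - mE E e = 0 := by
      have h3 : (e - mE E e) + (e - mE E e) ≤ 0 + (e - mE E e) := by rwa [zero_add]
      exact le_antisymm (le_of_add_le_add_right h3) (zero_le)
    have h4 : e ≤ mE E e := tsub_eq_zero_iff_le.1 h2
    have h5 : e = mE E e := le_antisymm h4 (mE_mem E hE h0 e).2
    rw [h5]
    exact (mE_mem E hE h0 e).1
  · intro h
    have h1 : e ≤ mE E e := le_mE E e e h le_rfl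
    apply le_antisymm
    · rw [KE_le_iff E hE h0]
      unfold R
      rw [tsub_eq_zero_iff_le.2 h1, add_zero]
    · calc e = KE E e 0 := (KE_zero E hE h0 e).symm
        _ = KE E 0 e := KE_comm E hE h0 e 0
        _ ≤ KE E e e := KE_mono E hE h0 0 e e (zero_le)

/-! ### jS -/

theorem KE_subadd (E : Set ℝ≥0) (hE : IsClosed E) (h0 : (0 : ℝ≥0) ∈ E)
    (hadd : ∀ e ∈ E, ∀ f ∈ E, e + f ∈ E) (a b c d : ℝ≥0) :
    KE E (a + c) (b + d) ≤ KE E a b + KE E c d := by
  rw [KE_le_iff E hE h0]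
  have h1 : R E (KE E a b) a b := (KE_le_iff E hE h0 a b _).1 le_rfl
  have h2 : R E (KE E c d) c d := (KE_le_iff E hE h0 c d _).1 le_rfl
  generalize KE E a b = s at h1 ⊢
  generalize KE E c d = t at h2 ⊢
  obtain ⟨hm, hms⟩ := mE_mem E hE h0 s
  obtain ⟨hn, hnt⟩ := mE_mem E hE h0 t
  obtain ⟨-, hqst⟩ := mE_mem E hE h0 (s + t)
  have hmn : mE E s + mE E t ≤ mE E (s + t) :=
    le_mE E _ _ (hadd _ hm _ hn) (add_le_add hms hnt)
  unfold R at h1 h2 ⊢
  clear hm hn
  generalize mE E s = m at *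
  generalize mE E t = n at *
  generalize mE E (s + t) = q at *
  have e1 : ((s - m : ℝ≥0) : ℝ) = s - m := NNReal.coe_sub hms
  have e2 : ((t - n : ℝ≥0) : ℝ) = t - n := NNReal.coe_sub hnt
  have e3 : ((s + t - q : ℝ≥0) : ℝ) = s + t - q := by
    rw [NNReal.coe_sub hqst, NNReal.coe_add]
  have key : ∀ x y : ℝ≥0, ((x - y : ℝ≥0) : ℝ) = max ((x : ℝ) - y) 0 := fun x y =>
    NNReal.coe_sub_def
  rw [← NNReal.coe_le_coe] at h1 h2 hmn hms hnt hqst ⊢
  rw [NNReal.coe_add, e1] at h1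
  rw [NNReal.coe_add, e2] at h2
  rw [NNReal.coe_add, e3, key (a + c) q, key (b + d) q]
  rw [key a m, key b m] at h1
  rw [key c n, key d n] at h2
  rw [NNReal.coe_add] at hmn hqst
  rw [NNReal.coe_add, NNReal.coe_add]
  have ha := le_max_left ((a : ℝ) - m) 0
  have ha0 := le_max_right ((a : ℝ) - m) 0
  have hb := le_max_left ((b : ℝ) - m) 0
  have hb0 := le_max_right ((b : ℝ) - m) 0
  have hc := le_max_left ((c : ℝ) - n) 0
  have hc0 := le_max_right ((c : ℝ) - n) 0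
  have hd := le_max_left ((d : ℝ) - n) 0
  have hd0 := le_max_right ((d : ℝ) - n) 0
  rcases max_cases ((a : ℝ) + c - q) 0 with ⟨g1, g1'⟩ | ⟨g1, g1'⟩ <;>
  rcases max_cases ((b : ℝ) + d - q) 0 with ⟨g2, g2'⟩ | ⟨g2, g2'⟩ <;>
  rw [g1, g2] <;> linarith

/-! ### jA -/

theorem jA_KE_assoc_mE (E : Set ℝ≥0) (hE : IsClosed E) (h0 : (0 : ℝ≥0) ∈ E) (s t : ℝ≥0)
    (h1 : mE E s ≤ t) (h2 : t ≤ s) : mE E t = mE E s := by
  apply le_antisymm
  · obtain ⟨h3, h4⟩ := mE_mem E hE h0 t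
    exact le_mE E s _ h3 (h4.trans h2)
  · exact le_mE E t _ (mE_mem E hE h0 s).1 h1

theorem jA_KE_assoc_iff (E : Set ℝ≥0) (hE : IsClosed E) (h0 : (0 : ℝ≥0) ∈ E) (a b c s : ℝ≥0) :
    KE E (KE E a b) c ≤ s ↔ (a - mE E s) + (b - mE E s) + (c - mE E s) ≤ s - mE E s := by
  rw [KE_le_iff E hE h0]
  unfold R
  have hms : mE E s ≤ s := (mE_mem E hE h0 s).2
  obtain ⟨m, hm⟩ : ∃ m, m = mE E s := ⟨_, rfl⟩
  have hmE := jA_KE_assoc_mE E hE h0 s
  rw [← hm] at hms hmE ⊢
  constructor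
  · intro h
    have ht : m + (KE E a b - m) ≤ s := by
      calc m + (KE E a b - m) ≤ m + (s - m) :=
            add_le_add_right ((le_self_add).trans h) m
        _ = s := add_tsub_cancel_of_le hms
    have h1 := hmE (m + (KE E a b - m)) le_self_add ht
    have h2 : KE E a b ≤ m + (KE E a b - m) := le_add_tsub
    rw [KE_le_iff E hE h0] at h2
    unfold R at h2
    rw [h1, add_tsub_cancel_left] at h2
    exact (add_le_add_left h2 _).trans h
  · intro h
    have ht : m + ((a - m) + (b - m)) ≤ s := by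
      calc m + ((a - m) + (b - m)) ≤ m + (s - m) :=
            add_le_add_right ((le_self_add).trans h) m
        _ = s := add_tsub_cancel_of_le hms
    have h1 := hmE (m + ((a - m) + (b - m))) le_self_add ht
    have h2 : KE E a b ≤ m + ((a - m) + (b - m)) := by
      rw [KE_le_iff E hE h0]
      unfold R
      rw [h1, add_tsub_cancel_left]
    have h3 : KE E a b - m ≤ (a - m) + (b - m) := by
      rw [tsub_le_iff_left]; exact h2
    exact (add_le_add_left h3 _).trans h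

theorem jA_KE_assoc_comm (E : Set ℝ≥0) (a b : ℝ≥0) : KE E a b = KE E b a := by
  unfold KE R
  congr 1
  ext s
  simp only [Set.mem_setOf_eq]
  rw [add_comm]

theorem KE_assoc (E : Set ℝ≥0) (hE : IsClosed E) (h0 : (0 : ℝ≥0) ∈ E) (a b c : ℝ≥0) :
    KE E (KE E a b) c = KE E a (KE E b c) := by
  rw [jA_KE_assoc_comm E a (KE E b c)]
  refine eq_of_forall_ge_iff fun s => ?_
  rw [jA_KE_assoc_iff E hE h0, jA_KE_assoc_iff E hE h0]
  have : (a - mE E s) + (b - mE E s) + (c - mE E s) = (b - mE E s) + (c - mE E s) + (a - mE E s) := by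
    ring
  rw [this]

/-! ### jC -/

/-- monotone subadditive functions with identity zero are continuous -/
theorem cont_of (K : ℝ≥0 → ℝ≥0 → ℝ≥0) (h1 : ∀ a, K a 0 = a) (h2 : ∀ a b, K a b = K b a)
    (h3 : ∀ a b c, a ≤ b → K a c ≤ K b c)
    (h4 : ∀ a b c d, K (a + c) (b + d) ≤ K a b + K c d) :
    Continuous fun p : ℝ≥0 × ℝ≥0 => K p.1 p.2 := by
  have hkk : ∀ h k, K h k ≤ h + k := by
    intro h k
    have e := h4 h 0 0 k
    rw [add_zero, zero_add, h1, h2 0 k, h1] at e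
    exact e
  have hmono : ∀ a b a' b', a ≤ a' → b ≤ b' → K a b ≤ K a' b' := by
    intro a b a' b' ha hb
    calc K a b ≤ K a' b := h3 a a' b ha
      _ = K b a' := h2 _ _
      _ ≤ K b' a' := h3 b b' a' hb
      _ = K a' b' := h2 _ _
  have hmain : ∀ a b a' b', K a b ≤ K a' b' + ((a - a') + (b - b')) := by
    intro a b a' b'
    calc K a b ≤ K (a' + (a - a')) (b' + (b - b')) :=
          hmono _ _ _ _ le_add_tsub le_add_tsub
      _ ≤ K a' b' + K (a - a') (b - b') := h4 _ _ _ _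
      _ ≤ K a' b' + ((a - a') + (b - b')) := add_le_add le_rfl (hkk _ _)
  have hsub : ∀ x y : ℝ≥0, ((x - y : ℝ≥0) : ℝ) ≤ dist x y := by
    intro x y
    rw [NNReal.dist_eq, NNReal.coe_sub_def]
    exact max_le (le_abs_self _) (abs_nonneg _)
  have hreal : ∀ a b a' b', (K a b : ℝ) ≤ K a' b' + (dist a a' + dist b b') := by
    intro a b a' b'
    have e : (K a b : ℝ) ≤ ((K a' b' + ((a - a') + (b - b')) : ℝ≥0) : ℝ) := by
      exact_mod_cast hmain a b a' b'
    rw [NNReal.coe_add, NNReal.coe_add] at e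
    linarith [hsub a a', hsub b b']
  have hlip : LipschitzWith 2 (fun p : ℝ≥0 × ℝ≥0 => K p.1 p.2) := by
    apply LipschitzWith.of_dist_le_mul
    intro p q
    rw [NNReal.dist_eq, abs_le]
    have e1 := hreal p.1 p.2 q.1 q.2
    have e2 := hreal q.1 q.2 p.1 p.2
    rw [dist_comm q.1 p.1, dist_comm q.2 p.2] at e2
    have e3 : dist p.1 q.1 ≤ dist p q := le_max_left _ _
    have e4 : dist p.2 q.2 ≤ dist p q := le_max_right _ _
    push_cast
    constructor <;> linarith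
  exact hlip.continuous

/-! ### jE -/

theorem exists_admissible (E : Set ℝ≥0) (hE : IsClosed E) (h0 : (0 : ℝ≥0) ∈ E)
    (hadd : ∀ e ∈ E, ∀ f ∈ E, e + f ∈ E) : ∃ K, Admissible K ∧ idem K = E :=
  ⟨KE E, ⟨KE_zero E hE h0, KE_comm E hE h0, KE_mono E hE h0, KE_subadd E hE h0 hadd,
    cont_of (KE E) (KE_zero E hE h0) (KE_comm E hE h0) (KE_mono E hE h0)
      (KE_subadd E hE h0 hadd), KE_assoc E hE h0⟩, KE_idem E hE h0⟩

/-- Main result.
(1) The set of idempotents of an admissible `K` is closed, contains `0` and is closed under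
addition; `K(a,b) = b` whenever `a ≤ e ≤ b` for an idempotent `e`, and
`K(e+x, e+y) ≤ e + K(x,y)` for an idempotent `e`.
(2) Every closed set `E` containing `0` and closed under addition is the set of idempotents of some
admissible `K`.
(3) If an admissible `K` has arbitrarily small positive idempotents, then `K = Max`. -/
theorem result :
    (∀ K : ℝ≥0 → ℝ≥0 → ℝ≥0, Admissible K →
      IsClosed (idem K) ∧ (0 : ℝ≥0) ∈ idem K ∧
      (∀ e ∈ idem K, ∀ f ∈ idem K, e + f ∈ idem K) ∧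
      (∀ e ∈ idem K, ∀ a b, a ≤ e → e ≤ b → K a b = b) ∧
      (∀ e ∈ idem K, ∀ x y, K (e + x) (e + y) ≤ e + K x y)) ∧
    (∀ E : Set ℝ≥0, IsClosed E → (0 : ℝ≥0) ∈ E → (∀ e ∈ E, ∀ f ∈ E, e + f ∈ E) →
      ∃ K : ℝ≥0 → ℝ≥0 → ℝ≥0, Admissible K ∧ idem K = E) ∧
    (∀ K : ℝ≥0 → ℝ≥0 → ℝ≥0, Admissible K →
      (∀ ε : ℝ≥0, 0 < ε → ∃ e ∈ idem K, 0 < e ∧ e < ε) → ∀ a b, K a b = max a b) := by
  refine ⟨fun K hK => ⟨idem_closed K hK, idem_zero K hK, fun e he f hf => idem_add K hK e f he hf,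
    fun e he a b ha hb => cross K hK e a b he ha hb, fun e he x y => shift K hK e x y he⟩,
    fun E hE h0 hadd => exists_admissible E hE h0 hadd, fun K hK h => idem_small K hK h⟩

end Pool.Agent.Results.MP_d71f90_an.Idempotents
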